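import Pool.Agent.H36.Bsp

open Pool.Agent.H38.NP Pool.Agent.H36.Bsp

theorem Pool.Agent.Results.MP_447f9a_lc.Hard.result : ∀ c : ℚ, 4 ≤ c →
    NPHardOn (fun p : ℕ × List (ℕ × ℕ) => Perfect (graphOf p.1 p.2) ∧ (graphOf p.1 p.2).Colorable 2)
      fun p => BSP c (graphOf p.1 p.2) := fun c hc =>
  ((hard c hc).reduce id PT.id' fun _ h => ⟨⟨perfect h, h⟩, Iff.rfl⟩).npHardOn
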